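import Pool.Agent.KLFin.Final.Main
import Pool.Agent.KLFin.BE6

/-!
# MP_d9d356_co: the Kazhdan-Lusztig value classes `KL_m` are finitely based
-/

open KLFin.Final Equiv

namespace Pool.Agent.Results.MP_d9d356_co.KLFinitelyBased

/-- The Kazhdan-Lusztig polynomials `P_{x,w}` of the symmetric groups exist and are unique, and
for every `m ≥ 1` the class `KL_m` of the permutations `w` with `P_{id,w}(1) ≤ m` is finitely
based: `KL_m = Av(B)` for a finite set `B` of permutations. -/
theorem result :
    ∃ P : (n : ℕ) → Perm (Fin (n + 1)) → Perm (Fin (n + 1)) → Polynomial ℤ,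
      (∀ n, IsKL (P n) ∧ ∀ P', IsKL P' → P' = P n) ∧
        ∀ m : ℕ, 1 ≤ m → FinitelyBased (KLClass P m) :=
  main_of (Q := fun _ w => KLFin.PP w) (fun _ w => KLFin.PP_spec w) KLFin.globalN

end Pool.Agent.Results.MP_d9d356_co.KLFinitelyBased
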